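import Mathlib

set_option autoImplicit false

/-!
Elementary inequalities for the lower bound on the number of parts of blow-ups.
-/

open Finset

namespace H16Blow

/-- `1 - t ≤ exp (-t - t²/2)` for `0 ≤ t ≤ 1`. -/
lemma one_sub_le_exp {t : ℝ} (h0 : 0 ≤ t) (h1 : t ≤ 1) :
    1 - t ≤ Real.exp (-t - t ^ 2 / 2) := by
  rcases eq_or_lt_of_le h1 with rfl | h1
  · simp only [sub_self]; positivity
  · have h := Real.hasSum_pow_div_log_of_abs_lt_one (x := t) (by rw [abs_of_nonneg h0]; exact h1)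
    have h2 := sum_le_hasSum (Finset.range 2) (fun i _ => by positivity) h
    simp only [Finset.sum_range_succ, Finset.sum_range_zero] at h2
    norm_num at h2
    rw [← Real.log_le_iff_le_exp (by linarith)]
    linarith

/-- The weighted AM-GM bound with a gain when one coordinate is away from the optimum. -/
lemma prod_le_gap {J : Type*} [Fintype J] (d x : J → ℝ) (l : J → ℕ) (n q L g : ℝ)
    (hn : 0 < n) (hL : 0 ≤ L) (hq : 0 < q) (hd : ∀ j, 0 ≤ d j) (hx : ∀ j, 0 < x j)
    (hx1 : ∀ j, x j ≤ 1)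
    (hsd : ∑ j, d j ≤ q * n) (hsx : ∑ j, x j = q) (hl : ∀ j, (l j : ℝ) = L / q * x j)
    (hg : 0 ≤ g) (j₀ : J) (hj₀ : g ≤ x j₀ - d j₀ / n) :
    ∏ j, d j ^ l j ≤ (∏ j, (n * x j) ^ l j) * Real.exp (-(L / q * g ^ 2 / 2)) := by
  classical
  set u : J → ℝ := fun j => d j / (n * x j) with hu
  have hu0 : ∀ j, 0 ≤ u j := fun j => div_nonneg (hd j) (mul_pos hn (hx j)).le
  have hdu : ∀ j, d j = (n * x j) * u j := by
    intro j
    have h := (mul_pos hn (hx j)).ne'
    simp only [hu]
    rw [mul_div_cancel₀ _ h]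
  have h1 : ∏ j, d j ^ l j = (∏ j, (n * x j) ^ l j) * ∏ j, u j ^ l j := by
    rw [← Finset.prod_mul_distrib]
    refine Finset.prod_congr rfl fun j _ => ?_
    rw [hdu j, mul_pow]
  rw [h1]
  apply mul_le_mul_of_nonneg_left _ (Finset.prod_nonneg fun j _ => pow_nonneg (mul_pos hn (hx j)).le _)
  -- bound each factor
  set δ : J → ℝ := fun j => if j = j₀ then L / q * g ^ 2 / 2 else 0 with hδ
  have h2 : ∀ j, u j ^ l j ≤ Real.exp (L / q * (d j / n - x j) - δ j) := by
    intro j
    have hlu : (l j : ℝ) * (u j - 1) = L / q * (d j / n - x j) := by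
      rw [hl j]
      have := (hx j).ne'
      have := hn.ne'
      have := hq.ne'
      simp only [hu]; field_simp
    by_cases hj : j = j₀
    · subst hj
      set t : ℝ := 1 - u j with ht
      have hxt : x j * t = x j - d j / n := by
        have := (hx j).ne'
        simp only [ht, hu]; field_simp
      have ht0 : 0 ≤ t := by
        by_contra hcon
        push Not at hcon
        have : x j * t < 0 := mul_neg_of_pos_of_neg (hx j) hcon
        linarith
      have ht1 : t ≤ 1 := by have := hu0 j; simp only [ht]; linarith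
      have h3 := one_sub_le_exp ht0 ht1
      have h4 : u j = 1 - t := by simp [ht]
      rw [h4]
      calc (1 - t) ^ l j ≤ (Real.exp (-t - t ^ 2 / 2)) ^ l j :=
            pow_le_pow_left₀ (by linarith) h3 _
        _ = Real.exp ((l j : ℝ) * (-t - t ^ 2 / 2)) := by rw [← Real.exp_nat_mul]
        _ ≤ _ := by
          apply Real.exp_le_exp.mpr
          simp only [hδ, if_pos rfl]
          have h5 : (l j : ℝ) * (-t) = L / q * (d j / n - x j) := by
            rw [← hlu]; simp only [ht]; ring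
          have h6 : L / q * g ^ 2 / 2 ≤ (l j : ℝ) * (t ^ 2 / 2) := by
            rw [hl j]
            have h7 : g ^ 2 ≤ x j * t ^ 2 := by
              have h8 : g ≤ x j * t := by rw [hxt]; exact hj₀
              have h9 : g ^ 2 ≤ (x j * t) ^ 2 := pow_le_pow_left₀ hg h8 2
              have h10 : (x j * t) ^ 2 ≤ x j * t ^ 2 := by
                have : x j * (x j * t ^ 2) ≤ 1 * (x j * t ^ 2) :=
                  mul_le_mul_of_nonneg_right (hx1 j) (mul_nonneg (hx j).le (sq_nonneg t))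
                nlinarith
              linarith
            have h11 : 0 ≤ L / q := div_nonneg hL hq.le
            nlinarith [mul_le_mul_of_nonneg_left h7 h11]
          nlinarith
    · have h3 : u j ≤ Real.exp (u j - 1) := by
        have := Real.add_one_le_exp (u j - 1); linarith
      calc u j ^ l j ≤ (Real.exp (u j - 1)) ^ l j := pow_le_pow_left₀ (hu0 j) h3 _
        _ = Real.exp ((l j : ℝ) * (u j - 1)) := by rw [← Real.exp_nat_mul]
        _ = _ := by rw [hlu]; simp [hδ, hj]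
  calc ∏ j, u j ^ l j ≤ ∏ j, Real.exp (L / q * (d j / n - x j) - δ j) :=
        Finset.prod_le_prod (fun j _ => pow_nonneg (hu0 j) _) (fun j _ => h2 j)
    _ = Real.exp (∑ j, (L / q * (d j / n - x j) - δ j)) := by rw [Real.exp_sum]
    _ ≤ _ := by
      apply Real.exp_le_exp.mpr
      rw [Finset.sum_sub_distrib, ← Finset.mul_sum, Finset.sum_sub_distrib, hsx,
        ← Finset.sum_div]
      have h4 : ∑ j, δ j = L / q * g ^ 2 / 2 := by simp [hδ]
      rw [h4]
      have h5 : (∑ j, d j) / n ≤ q := by rw [div_le_iff₀ hn]; exact hsd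
      have h6 : 0 ≤ L / q := div_nonneg hL hq.le
      nlinarith [mul_nonneg h6 (sub_nonneg.mpr h5)]

/-- The weighted AM-GM bound. -/
lemma prod_le_nogap {J : Type*} [Fintype J] (d x : J → ℝ) (l : J → ℕ) (n q L : ℝ)
    (hn : 0 < n) (hL : 0 ≤ L) (hq : 0 < q) (hd : ∀ j, 0 ≤ d j) (hx : ∀ j, 0 < x j)
    (hsd : ∑ j, d j ≤ q * n) (hsx : ∑ j, x j = q) (hl : ∀ j, (l j : ℝ) = L / q * x j) :
    ∏ j, d j ^ l j ≤ ∏ j, (n * x j) ^ l j := by
  classical
  set u : J → ℝ := fun j => d j / (n * x j) with hu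
  have hu0 : ∀ j, 0 ≤ u j := fun j => div_nonneg (hd j) (mul_pos hn (hx j)).le
  have hdu : ∀ j, d j = (n * x j) * u j := by
    intro j
    have h := (mul_pos hn (hx j)).ne'
    simp only [hu]
    rw [mul_div_cancel₀ _ h]
  have h1 : ∏ j, d j ^ l j = (∏ j, (n * x j) ^ l j) * ∏ j, u j ^ l j := by
    rw [← Finset.prod_mul_distrib]
    refine Finset.prod_congr rfl fun j _ => ?_
    rw [hdu j, mul_pow]
  rw [h1]
  have hP : 0 ≤ ∏ j, (n * x j) ^ l j :=
    Finset.prod_nonneg fun j _ => pow_nonneg (mul_pos hn (hx j)).le _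
  have h2 : ∏ j, u j ^ l j ≤ 1 := by
    have h2 : ∀ j, u j ^ l j ≤ Real.exp (L / q * (d j / n - x j)) := by
      intro j
      have hlu : (l j : ℝ) * (u j - 1) = L / q * (d j / n - x j) := by
        rw [hl j]
        have := (hx j).ne'
        have := hn.ne'
        have := hq.ne'
        simp only [hu]; field_simp
      have h3 : u j ≤ Real.exp (u j - 1) := by
        have := Real.add_one_le_exp (u j - 1); linarith
      calc u j ^ l j ≤ (Real.exp (u j - 1)) ^ l j := pow_le_pow_left₀ (hu0 j) h3 _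
        _ = Real.exp ((l j : ℝ) * (u j - 1)) := by rw [← Real.exp_nat_mul]
        _ = _ := by rw [hlu]
    calc ∏ j, u j ^ l j ≤ ∏ j, Real.exp (L / q * (d j / n - x j)) :=
          Finset.prod_le_prod (fun j _ => pow_nonneg (hu0 j) _) (fun j _ => h2 j)
      _ = Real.exp (∑ j, (L / q * (d j / n - x j))) := by rw [Real.exp_sum]
      _ ≤ Real.exp 0 := by
        apply Real.exp_le_exp.mpr
        rw [← Finset.mul_sum, Finset.sum_sub_distrib, hsx, ← Finset.sum_div]
        have h5 : (∑ j, d j) / n ≤ q := by rw [div_le_iff₀ hn]; exact hsd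
        have h6 : 0 ≤ L / q := div_nonneg hL hq.le
        nlinarith [mul_nonneg h6 (sub_nonneg.mpr h5)]
      _ = 1 := Real.exp_zero
  nlinarith

/-- The numerical choice of the parameters. -/
lemma numeric (q D lam : ℕ) (hq : 1 ≤ q) (hD : 2 ≤ D) (hlam : 1 ≤ lam) (hlamD : lam ≤ D)
    (hDlam : D ≤ 2 ^ lam) (m N T : ℕ) (hm : m + 1 = D)
    (hN : N = 16 * q * (q + 1) * (24 * (q + 1) + 6) * D * lam)
    (hT : T ≤ 4 * m ^ 2 * (q + 1) * (N * q ^ 2 * D)) :
    2 * (T : ℝ) ^ (m * (q + 1)) < Real.exp ((N : ℝ) / (16 * q)) := by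
  have hq' : (1 : ℝ) ≤ q := by exact_mod_cast hq
  have hD' : (2 : ℝ) ≤ D := by exact_mod_cast hD
  have hm' : (m : ℝ) + 1 = D := by exact_mod_cast hm
  have hm0 : (0 : ℝ) ≤ m := Nat.cast_nonneg m
  have hlam' : (1 : ℝ) ≤ lam := by exact_mod_cast hlam
  have hlamD' : (lam : ℝ) ≤ D := by exact_mod_cast hlamD
  have hDlam' : (D : ℝ) ≤ 2 ^ lam := by exact_mod_cast hDlam
  have h2e : (2 : ℝ) < Real.exp 1 := by
    have := Real.exp_one_gt_d9; linarith
  set w : ℝ := 4 * (q + 1) with hw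
  have hw0 : 0 < w := by positivity
  have hNr : (N : ℝ) = 16 * q * (q + 1) * (6 * w + 6) * D * lam := by
    rw [hN]; push_cast; simp only [hw]; ring
  have hTr : (T : ℝ) ≤ 4 * m ^ 2 * (q + 1) * (N * q ^ 2 * D) := by exact_mod_cast hT
  have hT2 : (T : ℝ) ≤ 64 * q ^ 3 * (q + 1) ^ 2 * (6 * w + 6) * D ^ 5 := by
    refine hTr.trans ?_
    rw [hNr]
    have h1 : (m : ℝ) ^ 2 ≤ D ^ 2 := pow_le_pow_left₀ hm0 (by linarith) 2
    calc 4 * (m : ℝ) ^ 2 * (q + 1) * (16 * q * (q + 1) * (6 * w + 6) * D * lam * q ^ 2 * D)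
        = 64 * q ^ 3 * (q + 1) ^ 2 * (6 * w + 6) * (m ^ 2 * (D ^ 2 * lam)) := by
          ring
      _ ≤ 64 * q ^ 3 * (q + 1) ^ 2 * (6 * w + 6) * (D ^ 2 * (D ^ 2 * D)) := by
          apply mul_le_mul_of_nonneg_left _ (by positivity)
          apply mul_le_mul h1 _ (by positivity) (by positivity)
          exact mul_le_mul_of_nonneg_left hlamD' (by positivity)
      _ = _ := by ring
  have hc5 : 64 * q ^ 3 * (q + 1) ^ 2 * (6 * w + 6) ≤ w ^ 6 := by
    have h1 : 6 * w + 6 ≤ 30 * (q + 1) := by simp only [hw]; linarith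
    have h2 : (q : ℝ) ^ 3 ≤ (q + 1) ^ 3 := pow_le_pow_left₀ (by linarith) (by linarith) 3
    have h3 : 0 ≤ (q + 1 : ℝ) ^ 2 := by positivity
    calc 64 * (q : ℝ) ^ 3 * (q + 1) ^ 2 * (6 * w + 6)
        ≤ 64 * (q + 1) ^ 3 * (q + 1) ^ 2 * (30 * (q + 1)) := by
          apply mul_le_mul _ h1 (by positivity) (by positivity)
          apply mul_le_mul_of_nonneg_right _ h3
          linarith
      _ = 1920 * ((q : ℝ) + 1) ^ 6 := by ring
      _ ≤ 4096 * ((q : ℝ) + 1) ^ 6 := by
          have : 0 ≤ ((q : ℝ) + 1) ^ 6 := by positivity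
          linarith
      _ = w ^ 6 := by simp only [hw]; ring
  have hw6 : w ^ 6 ≤ Real.exp (6 * w * lam) := by
    have h1 : w ≤ Real.exp w := by
      have := Real.add_one_le_exp w; linarith
    calc w ^ 6 ≤ (Real.exp w) ^ 6 := pow_le_pow_left₀ hw0.le h1 6
      _ = Real.exp (6 * w) := by rw [← Real.exp_nat_mul]; congr 1
      _ ≤ Real.exp (6 * w * lam) := by
        apply Real.exp_le_exp.mpr
        nlinarith
  have hD5 : (D : ℝ) ^ 5 ≤ Real.exp (5 * lam) := by
    calc (D : ℝ) ^ 5 ≤ (2 ^ lam) ^ 5 := pow_le_pow_left₀ (by linarith) hDlam' 5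
      _ ≤ ((Real.exp 1) ^ lam) ^ 5 :=
          pow_le_pow_left₀ (by positivity) (pow_le_pow_left₀ (by norm_num) h2e.le _) 5
      _ = Real.exp (5 * lam) := by
          rw [← Real.exp_nat_mul, ← Real.exp_nat_mul]; congr 1; push_cast; ring
  have hT4 : (T : ℝ) ≤ Real.exp ((6 * w + 5) * lam) := by
    calc (T : ℝ) ≤ 64 * q ^ 3 * (q + 1) ^ 2 * (6 * w + 6) * D ^ 5 := hT2
      _ ≤ Real.exp (6 * w * lam) * Real.exp (5 * lam) := by
          apply mul_le_mul (hc5.trans hw6) hD5 (by positivity) (Real.exp_pos _).le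
      _ = Real.exp ((6 * w + 5) * lam) := by rw [← Real.exp_add]; congr 1; ring
  have hpow : (T : ℝ) ^ (m * (q + 1)) ≤ Real.exp ((6 * w + 5) * lam * (m * (q + 1))) := by
    calc (T : ℝ) ^ (m * (q + 1)) ≤ (Real.exp ((6 * w + 5) * lam)) ^ (m * (q + 1)) :=
          pow_le_pow_left₀ (Nat.cast_nonneg T) hT4 _
      _ = _ := by rw [← Real.exp_nat_mul]; congr 1; push_cast; ring
  calc 2 * (T : ℝ) ^ (m * (q + 1)) ≤ 2 * Real.exp ((6 * w + 5) * lam * (m * (q + 1))) := by
        linarith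
    _ < Real.exp 1 * Real.exp ((6 * w + 5) * lam * (m * (q + 1))) :=
        mul_lt_mul_of_pos_right h2e (Real.exp_pos _)
    _ = Real.exp (1 + (6 * w + 5) * lam * (m * (q + 1))) := by rw [Real.exp_add]
    _ ≤ Real.exp ((N : ℝ) / (16 * q)) := by
        apply Real.exp_le_exp.mpr
        have h5 : (N : ℝ) / (16 * q) = (q + 1) * (6 * w + 6) * D * lam := by
          rw [hNr]; field_simp
        rw [h5]
        have hmD : (m : ℝ) ≤ D := by linarith
        have h6 : (6 * w + 5) * lam * (m * (q + 1)) ≤ (6 * w + 5) * lam * (D * (q + 1)) := by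
          apply mul_le_mul_of_nonneg_left _ (by positivity)
          exact mul_le_mul_of_nonneg_right hmD (by positivity)
        have h7 : (1 : ℝ) ≤ lam * (D * (q + 1)) := by
          have : (1 : ℝ) ≤ D * (q + 1) := by nlinarith
          nlinarith
        nlinarith

end H16Blow
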