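import Pool.Agent.H67.Blow.CopyCount
import Pool.Agent.H16.BlowIneq

set_option autoImplicit false

/-!
The graphs `H` (cliques with pendant leaves), their number of homomorphisms into a graph, and
the host graphs.
-/

open Finset

namespace H16Blow

/-- index type of the hubs -/
abbrev Hub (m q : ℕ) := Fin m × Fin (q + 1)

/-- vertices of `H`: hubs and leaves, the hub `p` has `l p` leaves -/
abbrev HV (m q : ℕ) (l : Hub m q → ℕ) := Hub m q ⊕ (Σ p : Hub m q, Fin (l p))

/-- `m` disjoint cliques on `q+1` hubs, hub `p` having `l p` pendant leaves. -/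
def HG (m q : ℕ) (l : Hub m q → ℕ) : SimpleGraph (HV m q l) where
  Adj a b := match a, b with
    | .inl p, .inl p' => p.1 = p'.1 ∧ p.2 ≠ p'.2
    | .inl p, .inr c => c.1 = p
    | .inr c, .inl p => c.1 = p
    | .inr _, .inr _ => False
  symm := ⟨by
    rintro (a | a) (b | b) h
    · exact ⟨h.1.symm, h.2.symm⟩
    · exact h
    · exact h
    · exact h⟩
  loopless := ⟨by
    rintro (a | a) h
    · exact h.2 rfl
    · exact h⟩

lemma HG_ll {m q : ℕ} {l : Hub m q → ℕ} (p p' : Hub m q) :
    (HG m q l).Adj (.inl p) (.inl p') ↔ p.1 = p'.1 ∧ p.2 ≠ p'.2 := Iff.rfl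

lemma HG_lr {m q : ℕ} {l : Hub m q → ℕ} (p : Hub m q) (c : Σ p : Hub m q, Fin (l p)) :
    (HG m q l).Adj (.inl p) (.inr c) ↔ c.1 = p := Iff.rfl

/-- chromatic number of `H` -/
lemma HG_chromatic (m q : ℕ) (hm : 0 < m) (hq : 1 ≤ q) (l : Hub m q → ℕ) :
    (HG m q l).chromaticNumber = ((q + 1 : ℕ) : ℕ∞) := by
  apply le_antisymm
  · have hc : (HG m q l).Colorable (q + 1) := by
      let c : HV m q l → Fin (q + 1) := fun a => match a with
        | .inl p => p.2
        | .inr c => if c.1.2 = 0 then 1 else 0
      refine ⟨SimpleGraph.Coloring.mk c ?_⟩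
      have h01 : (1 : Fin (q + 1)) ≠ 0 := by
        intro h
        have := congrArg Fin.val h
        rw [Fin.val_zero, Fin.val_one'] at this
        have h2 : 1 % (q + 1) = 1 := Nat.mod_eq_of_lt (by omega)
        omega
      rintro (a | a) (b | b) h
      · exact h.2
      · have h' : b.1 = a := h
        simp only [c]
        split_ifs with h1
        · rw [← h', h1]; exact h01.symm
        · rw [← h']; exact h1
      · have h' : a.1 = b := h
        simp only [c]
        split_ifs with h1
        · rw [← h', h1]; exact h01
        · rw [← h']; exact fun h => h1 h.symm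
      · exact absurd h (by intro h; exact h)
    exact hc.chromaticNumber_le
  · -- contains a clique of size `q+1`
    have hcl : (HG m q l).IsClique
        ((univ.image (fun j : Fin (q + 1) => (Sum.inl (⟨0, hm⟩, j) : HV m q l))) :
          Finset (HV m q l)) := by
      intro a ha b hb hab
      simp only [coe_image, coe_univ, Set.image_univ, Set.mem_range] at ha hb
      obtain ⟨j, rfl⟩ := ha
      obtain ⟨j', rfl⟩ := hb
      rw [HG_ll]
      exact ⟨rfl, fun h => hab (by simp at h; rw [h])⟩
    have h := SimpleGraph.IsClique.card_le_chromaticNumber hcl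
    have hcard : (univ.image (fun j : Fin (q + 1) => (Sum.inl (⟨0, hm⟩, j) : HV m q l))).card =
        q + 1 := by
      rw [Finset.card_image_of_injective, Finset.card_univ, Fintype.card_fin]
      intro a b hab
      simpa using hab
    rw [hcard] at h
    exact h

section upper
variable {V : Type*} [Fintype V]

open Classical in
/-- degree -/
noncomputable def dg (G : SimpleGraph V) (x : V) : ℕ := (univ.filter (fun y => G.Adj x y)).card

/-- The degrees of the vertices of a `(q+1)`-clique in a `K_{q+2}`-free graph. -/
lemma sum_dg_le (G : SimpleGraph V) (q : ℕ) (hG : G.CliqueFree (q + 2)) (v : Fin (q + 1) → V)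
    (hv : ∀ i j, i ≠ j → G.Adj (v i) (v j)) : ∑ j, dg G (v j) ≤ q * Fintype.card V := by
  classical
  have h1 : ∑ j, dg G (v j) = ∑ y : V, (univ.filter (fun j => G.Adj (v j) y)).card := by
    unfold dg
    simp_rw [Finset.card_filter]
    rw [Finset.sum_comm]
  rw [h1]
  have h2 : ∀ y : V, (univ.filter (fun j => G.Adj (v j) y)).card ≤ q := by
    intro y
    by_contra hcon
    push Not at hcon
    have h3 : (univ.filter (fun j => G.Adj (v j) y)) = univ := by
      apply Finset.eq_univ_of_card
      rw [Fintype.card_fin]
      apply le_antisymm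
      · exact (Finset.card_le_univ _).trans_eq (Fintype.card_fin _)
      · omega
    have h4 : ∀ j, G.Adj (v j) y := by
      intro j
      have : j ∈ (univ.filter (fun j => G.Adj (v j) y)) := by rw [h3]; exact mem_univ j
      exact (mem_filter.mp this).2
    apply hG (insert y (univ.image v))
    constructor
    · intro a ha b hb hab
      simp only [coe_insert, coe_image, coe_univ, Set.image_univ, Set.mem_insert_iff,
        Set.mem_range] at ha hb
      rcases ha with rfl | ⟨i, rfl⟩ <;> rcases hb with rfl | ⟨j, rfl⟩
      · exact absurd rfl hab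
      · exact (h4 j).symm
      · exact h4 i
      · exact hv i j (fun h => hab (by rw [h]))
    · rw [Finset.card_insert_of_notMem, Finset.card_image_of_injective, Finset.card_univ,
        Fintype.card_fin]
      · intro i j hij
        by_contra hne
        have := hv i j hne
        rw [hij] at this
        exact G.loopless.irrefl _ this
      · intro h
        simp only [mem_image, mem_univ, true_and] at h
        obtain ⟨j, hj⟩ := h
        have := h4 j
        rw [hj] at this
        exact G.loopless.irrefl _ this
  calc ∑ y : V, (univ.filter (fun j => G.Adj (v j) y)).card ≤ ∑ _y : V, q :=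
        Finset.sum_le_sum fun y _ => h2 y
    _ = q * Fintype.card V := by rw [Finset.sum_const, Finset.card_univ, smul_eq_mul, mul_comm]

/-- Upper bound for the number of labelled copies of `H`: sum over the positions of the hubs. -/
lemma num_le_of_bound (m q : ℕ) (l : Hub m q → ℕ) (G : SimpleGraph V) (B : ℝ)
    (hB : ∀ g : Hub m q → V, (∀ i j j', j ≠ j' → G.Adj (g (i, j)) (g (i, j'))) →
      ∏ p, (dg G (g p) : ℝ) ^ l p ≤ B) (hB0 : 0 ≤ B) :
    (H67Blow.num (HG m q l) G : ℝ) ≤ (Fintype.card V : ℝ) ^ (m * (q + 1)) * B := by
  classical
  set good : Finset (Hub m q → V) :=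
    univ.filter (fun g => ∀ i j j', j ≠ j' → G.Adj (g (i, j)) (g (i, j'))) with hgood
  set S : Finset (Σ _ : Hub m q → V, ((Σ p : Hub m q, Fin (l p)) → V)) :=
    good.sigma (fun g => Fintype.piFinset (fun c : (Σ p : Hub m q, Fin (l p)) =>
      univ.filter (fun y => G.Adj (g c.1) y))) with hS
  have h1 : H67Blow.num (HG m q l) G ≤ S.card := by
    unfold H67Blow.num
    apply Finset.card_le_card_of_injOn
      (fun f => (⟨fun p => f (.inl p), fun c => f (.inr c)⟩ :
        (Σ _ : Hub m q → V, ((Σ p : Hub m q, Fin (l p)) → V))))
    · intro f hf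
      simp only [H67Blow.injs, coe_filter, mem_univ, true_and, Set.mem_ofPred_eq] at hf
      simp only [hS, coe_sigma, Set.mem_sigma_iff, mem_coe, hgood, mem_filter, mem_univ, true_and,
        Fintype.mem_piFinset]
      constructor
      · intro i j j' hjj'
        exact hf.2 _ _ ⟨rfl, hjj'⟩
      · intro c
        exact hf.2 _ _ (show (HG m q l).Adj (.inl c.1) (.inr c) from rfl)
    · intro f _ f' _ h
      simp only [Sigma.mk.injEq, heq_eq_eq] at h
      funext a
      rcases a with a | a
      · exact congrFun h.1 a
      · exact congrFun h.2 a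
  have h2 : (S.card : ℝ) = ∑ g ∈ good, ∏ p, (dg G (g p) : ℝ) ^ l p := by
    rw [hS, Finset.card_sigma]
    push_cast
    refine Finset.sum_congr rfl fun g _ => ?_
    rw [Fintype.card_piFinset]
    push_cast
    rw [Fintype.prod_sigma]
    refine Finset.prod_congr rfl fun p _ => ?_
    simp only [Finset.prod_const, Finset.card_univ, Fintype.card_fin]
    rfl
  calc (H67Blow.num (HG m q l) G : ℝ) ≤ (S.card : ℝ) := by exact_mod_cast h1
    _ = ∑ g ∈ good, ∏ p, (dg G (g p) : ℝ) ^ l p := h2
    _ ≤ ∑ _g ∈ good, B := by
        apply Finset.sum_le_sum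
        intro g hg
        exact hB g (mem_filter.mp hg).2
    _ = (good.card : ℝ) * B := by rw [Finset.sum_const, nsmul_eq_mul]
    _ ≤ _ := by
        apply mul_le_mul_of_nonneg_right _ hB0
        have : good.card ≤ Fintype.card V ^ (m * (q + 1)) := by
          calc good.card ≤ Fintype.card (Hub m q → V) := Finset.card_le_univ _
            _ = _ := by
              rw [Fintype.card_fun, Fintype.card_prod, Fintype.card_fin, Fintype.card_fin]
        exact_mod_cast this

end upper

section count

/-- injective functions with prescribed sets of values -/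
noncomputable def injA {V : Type*} [Fintype V] {W : Type*} [Fintype W] (A : W → Finset V) :
    Finset (W → V) := by
  classical
  exact univ.filter (fun f => Function.Injective f ∧ ∀ w, f w ∈ A w)

lemma mem_injA {V : Type*} [Fintype V] {W : Type*} [Fintype W] (A : W → Finset V) (f : W → V) :
    f ∈ injA A ↔ Function.Injective f ∧ ∀ w, f w ∈ A w := by
  simp [injA]

/-- number of injective functions with prescribed sets of values -/
lemma card_injA_ge {V : Type*} [Fintype V] (W : Type) [Fintype W] :
    ∀ (C : ℕ), Fintype.card W ≤ C → ∀ A : W → Finset V,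
      ∏ w, ((A w).card - C) ≤ (injA A).card := by
  classical
  refine Fintype.induction_empty_option (P := fun W _ => ∀ (C : ℕ), Fintype.card W ≤ C →
    ∀ A : W → Finset V, ∏ w, ((A w).card - C) ≤ (injA A).card) ?_ ?_ ?_ W
  · intro α β _ e ih C hC A
    let _ : Fintype α := Fintype.ofEquiv β e.symm
    have h := ih C ((Fintype.card_congr e).trans_le hC) (fun a => A (e a))
    have h1 : ∏ a, ((A (e a)).card - C) = ∏ b, ((A b).card - C) :=
      Fintype.prod_equiv e _ _ (fun _ => rfl)
    rw [h1] at h
    refine h.trans ?_
    apply Finset.card_le_card_of_injOn (fun f => fun b => f (e.symm b))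
    · intro f hf
      rw [mem_coe, mem_injA] at hf
      rw [mem_coe, mem_injA]
      refine ⟨hf.1.comp e.symm.injective, fun b => ?_⟩
      have := hf.2 (e.symm b)
      rwa [e.apply_symm_apply] at this
    · intro f _ f' _ h
      funext a
      have := congrFun h (e a)
      simpa using this
  · intro C _ A
    rw [Finset.prod_of_isEmpty]
    apply Finset.card_pos.mpr
    exact ⟨fun x => x.elim, (mem_injA _ _).mpr ⟨fun x => x.elim, fun x => x.elim⟩⟩
  · intro α _ ih C hC A
    rw [Fintype.card_option] at hC
    have h := ih C (by omega) (fun a => A (some a))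
    rw [Fintype.prod_option]
    set S : Finset (Σ _ : α → V, V) :=
      (injA (fun a => A (some a))).sigma (fun g => A none \ univ.image g) with hS
    have h2 : ((A none).card - C) * (injA (fun a => A (some a))).card ≤ S.card := by
      rw [hS, Finset.card_sigma, mul_comm, ← smul_eq_mul, ← Finset.sum_const]
      apply Finset.sum_le_sum
      intro g _
      have h3 : (univ.image g).card ≤ Fintype.card α := Finset.card_image_le
      have h4 : (A none).card - (univ.image g).card ≤ (A none \ univ.image g).card :=
        Finset.le_card_sdiff _ _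
      omega
    calc ((A none).card - C) * ∏ a, ((A (some a)).card - C)
        ≤ ((A none).card - C) * (injA (fun a => A (some a))).card := Nat.mul_le_mul_left _ h
      _ ≤ S.card := h2
      _ ≤ (injA A).card := by
        apply Finset.card_le_card_of_injOn (fun s => fun o : Option α => o.elim s.2 s.1)
        · intro s hs
          simp only [hS, coe_sigma, Set.mem_sigma_iff, mem_coe, mem_injA, mem_sdiff,
            mem_image, mem_univ, true_and] at hs
          rw [mem_coe, mem_injA]
          obtain ⟨⟨hs1, hs2⟩, hs3, hs4⟩ := hs
          constructor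
          · rintro (_ | a) (_ | b) hab
            · rfl
            · exact absurd ⟨b, hab.symm⟩ hs4
            · exact absurd ⟨a, hab⟩ hs4
            · rw [hs1 hab]
          · rintro (_ | a)
            · exact hs3
            · exact hs2 a
        · rintro ⟨g, x⟩ _ ⟨g', x'⟩ _ h
          have h1 : x = x' := congrFun h none
          have h2 : g = g' := by funext a; exact congrFun h (some a)
          rw [h1, h2]

end count

end H16Blow
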