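import Pool.Agent.H16.BlowGraph

set_option autoImplicit false

/-!
The host graphs and the comparison.
-/

open Finset

namespace H16Blow

/-- relative degrees (times `q * D`) of the hubs -/
def ee (m q D : ℕ) (p : Hub m q) : ℕ := if p.2 = 0 then q * (p.1.val + 1) else q * D - (p.1.val + 1)

/-- adjacency between hub parts and the units of the large independent part -/
def adjY {m q : ℕ} (D u : ℕ) (p : Hub m q) (y : Fin q × Fin (D * u)) : Prop :=
  if p.2 = 0 then y.2.val < (p.1.val + 1) * u
  else ¬ (y.2.val < (p.1.val + 1) * u ∧ y.1.val + 1 = p.2.val)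

/-- vertices of the base graph of the host -/
abbrev ZT (m q D u : ℕ) := Hub m q ⊕ (Fin q × Fin (D * u))

/-- base graph of the host -/
def BG (m q D u : ℕ) : SimpleGraph (ZT m q D u) where
  Adj a b := match a, b with
    | .inl p, .inl p' => p.1 = p'.1 ∧ p.2 ≠ p'.2
    | .inl p, .inr y => adjY D u p y
    | .inr y, .inl p => adjY D u p y
    | .inr _, .inr _ => False
  symm := ⟨by
    rintro (a | a) (b | b) h
    · exact ⟨h.1.symm, h.2.symm⟩
    · exact h
    · exact h
    · exact h⟩
  loopless := ⟨by
    rintro (a | a) h
    · exact h.2 rfl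
    · exact h⟩

lemma BG_cliqueFree (m q D u : ℕ) (hq : 1 ≤ q) : (BG m q D u).CliqueFree (q + 2) := by
  classical
  intro s hs
  -- there is a hub in `s`
  have hhub : ∃ p : Hub m q, (Sum.inl p : ZT m q D u) ∈ s := by
    by_contra hcon
    push Not at hcon
    have h1 : s.card ≤ 1 := by
      rw [Finset.card_le_one]
      intro a ha b hb
      by_contra hab
      have h2 := hs.isClique ha hb hab
      rcases a with a | a
      · exact hcon a ha
      · rcases b with b | b
        · exact hcon b hb
        · exact h2
    rw [hs.card_eq] at h1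
    omega
  obtain ⟨p₀, hp₀⟩ := hhub
  have hsame : ∀ p : Hub m q, (Sum.inl p : ZT m q D u) ∈ s → p.1 = p₀.1 := by
    intro p hp
    by_contra hne
    have hab : (Sum.inl p : ZT m q D u) ≠ Sum.inl p₀ := by
      intro h
      simp only [Sum.inl.injEq] at h
      exact hne (by rw [h])
    exact hne (hs.isClique hp hp₀ hab).1
  let F : ZT m q D u → Fin (q + 1) := fun z => match z with
    | .inl p => p.2
    | .inr y => if y.2.val < (p₀.1.val + 1) * u then y.1.succ else 0
  have hF : Set.InjOn F s := by
    intro a ha b hb hab
    by_contra hne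
    have h2 := hs.isClique ha hb hne
    rcases a with a | a <;> rcases b with b | b
    · exact h2.2 hab
    · have h3 : adjY D u a b := h2
      have h4 : a.2 = (if b.2.val < (p₀.1.val + 1) * u then b.1.succ else 0) := hab
      have h5 := hsame a ha
      unfold adjY at h3
      rw [h5] at h3
      split_ifs at h4 with h6
      · rw [if_neg (by rw [h4]; exact Fin.succ_ne_zero _)] at h3
        exact h3 ⟨h6, by rw [h4, Fin.val_succ]⟩
      · rw [if_pos h4] at h3
        exact h6 h3
    · have h3 : adjY D u b a := h2
      have h4 : (if a.2.val < (p₀.1.val + 1) * u then a.1.succ else 0) = b.2 := hab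
      have h5 := hsame b hb
      unfold adjY at h3
      rw [h5] at h3
      split_ifs at h4 with h6
      · rw [if_neg (by rw [← h4]; exact Fin.succ_ne_zero _)] at h3
        exact h3 ⟨h6, by rw [← h4, Fin.val_succ]⟩
      · rw [if_pos h4.symm] at h3
        exact h6 h3
    · exact h2
  have h1 : s.card ≤ (univ : Finset (Fin (q + 1))).card :=
    Finset.card_le_card_of_injOn F (fun _ _ => mem_univ _) hF
  rw [hs.card_eq, Finset.card_univ, Fintype.card_fin] at h1
  omega

lemma card_val_lt (K a : ℕ) (h : a ≤ K) :
    (univ.filter (fun t : Fin K => t.val < a)).card = a := by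
  have h1 : (univ.filter (fun t : Fin K => t.val < a)) = (univ : Finset (Fin a)).map
      (Fin.castLEEmb h) := by
    ext t
    simp only [mem_filter, mem_univ, true_and, mem_map, Fin.castLEEmb_apply]
    constructor
    · intro ht
      exact ⟨⟨t.val, ht⟩, Fin.ext rfl⟩
    · rintro ⟨b, rfl⟩
      exact b.2
  rw [h1, Finset.card_map, Finset.card_univ, Fintype.card_fin]

open Classical in
lemma card_adjY (m q D u : ℕ) (hm : m + 1 = D) (p : Hub m q) :
    (univ.filter (fun y : Fin q × Fin (D * u) => adjY D u p y)).card = u * ee m q D p := by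
  have hi : (p.1.val + 1) * u ≤ D * u := Nat.mul_le_mul_right u (by have := p.1.2; omega)
  unfold ee adjY
  by_cases hp : p.2 = 0
  · simp only [if_pos hp]
    have h1 : (univ.filter (fun y : Fin q × Fin (D * u) => y.2.val < (p.1.val + 1) * u)) =
        (univ : Finset (Fin q)) ×ˢ (univ.filter (fun t : Fin (D * u) =>
          t.val < (p.1.val + 1) * u)) := by
      ext y; simp
    rw [h1, Finset.card_product, Finset.card_univ, Fintype.card_fin, card_val_lt _ _ hi]
    ring
  · simp only [if_neg hp]
    have hp0 : p.2.val ≠ 0 := fun h => hp (Fin.ext h)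
    have hq1 : p.2.val - 1 < q := by have := p.2.2; omega
    have h1 : (univ.filter (fun y : Fin q × Fin (D * u) =>
        y.2.val < (p.1.val + 1) * u ∧ y.1.val + 1 = p.2.val)) =
        ({⟨p.2.val - 1, hq1⟩} : Finset (Fin q)) ×ˢ (univ.filter (fun t : Fin (D * u) =>
          t.val < (p.1.val + 1) * u)) := by
      ext y
      simp only [mem_filter, mem_univ, true_and, mem_product, mem_singleton]
      constructor
      · rintro ⟨h1, h2⟩
        exact ⟨Fin.ext (by simp; omega), h1⟩
      · rintro ⟨h1, h2⟩
        refine ⟨h2, ?_⟩
        rw [h1]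
        simp
        omega
    have h2 := Finset.card_filter_add_card_filter_not (s := (univ : Finset (Fin q × Fin (D * u))))
      (p := fun y => y.2.val < (p.1.val + 1) * u ∧ y.1.val + 1 = p.2.val)
    rw [h1, Finset.card_product, Finset.card_singleton, card_val_lt _ _ hi, Finset.card_univ,
      Fintype.card_prod, Fintype.card_fin, Fintype.card_fin] at h2
    have h3 : u * (q * D - (p.1.val + 1)) = q * (D * u) - (p.1.val + 1) * u := by
      rw [Nat.mul_sub]
      ring_nf
    rw [h3]
    omega

/-- the assignment of vertices to the parts of the host -/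
noncomputable def cc (m q D u : ℕ) (hT : 0 < Fintype.card (ZT m q D u)) (n : ℕ) :
    Fin n → ZT m q D u :=
  fun x => (Fintype.equivFin (ZT m q D u)).symm ⟨x.val % Fintype.card (ZT m q D u),
    Nat.mod_lt _ hT⟩

open Classical in
lemma cc_card (m q D u : ℕ) (hT : 0 < Fintype.card (ZT m q D u)) (n : ℕ) (z : ZT m q D u) :
    n / Fintype.card (ZT m q D u) ≤ (univ.filter (fun x => cc m q D u hT n x = z)).card := by
  set T := Fintype.card (ZT m q D u) with hTdef
  set r := Fintype.equivFin (ZT m q D u) z with hr
  have hlt : ∀ k : Fin (n / T), k.val * T + r.val < n := by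
    intro k
    have h1 : (k.val + 1) * T ≤ n / T * T := Nat.mul_le_mul_right T k.2
    have h2 : n / T * T ≤ n := Nat.div_mul_le_self n T
    have h3 : r.val < T := r.2
    have h4 : (k.val + 1) * T = k.val * T + T := by ring
    omega
  calc n / T = (univ : Finset (Fin (n / T))).card := by rw [Finset.card_univ, Fintype.card_fin]
    _ ≤ _ := by
      apply Finset.card_le_card_of_injOn (fun k => (⟨k.val * T + r.val, hlt k⟩ : Fin n))
      · intro k _
        simp only [coe_filter, mem_univ, true_and, Set.mem_ofPred_eq, cc]
        rw [Equiv.symm_apply_eq]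
        apply Fin.ext
        change (k.val * T + r.val) % T = r.val
        rw [mul_comm, Nat.mul_add_mod]
        exact Nat.mod_eq_of_lt r.2
      · intro k _ k' _ h
        simp only [Fin.mk.injEq, add_left_inj] at h
        exact Fin.ext (Nat.eq_of_mul_eq_mul_right hT h)

open Classical in
/-- Lower bound for the number of labelled copies of `H` in the host. -/
lemma num_host_ge (m q D u : ℕ) (l : Hub m q → ℕ) (hm : m + 1 = D)
    (hT : 0 < Fintype.card (ZT m q D u)) (n : ℕ) :
    (∏ _p : Hub m q, (n / Fintype.card (ZT m q D u) - Fintype.card (HV m q l))) *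
      (∏ p : Hub m q, (u * ee m q D p * (n / Fintype.card (ZT m q D u)) -
        Fintype.card (HV m q l)) ^ l p) ≤
      H67Blow.num (HG m q l) ((BG m q D u).comap (cc m q D u hT n)) := by
  set T := Fintype.card (ZT m q D u) with hTdef
  set C := Fintype.card (HV m q l) with hC
  set c := cc m q D u hT n with hc
  let A : HV m q l → Finset (Fin n) := fun w => match w with
    | .inl p => univ.filter (fun x => c x = .inl p)
    | .inr w => (univ.filter (fun y : Fin q × Fin (D * u) => adjY D u w.1 y)).biUnion
        (fun y => univ.filter (fun x => c x = .inr y))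
  have h1 := card_injA_ge (HV m q l) C le_rfl A
  have h2 : (injA A).card ≤ H67Blow.num (HG m q l) ((BG m q D u).comap c) := by
    unfold H67Blow.num
    apply Finset.card_le_card
    intro f hf
    rw [mem_injA] at hf
    simp only [H67Blow.injs, mem_filter, mem_univ, true_and]
    refine ⟨hf.1, ?_⟩
    have hl : ∀ p, c (f (.inl p)) = .inl p := by
      intro p
      have := hf.2 (.inl p)
      simpa [A] using this
    have hr : ∀ w : (Σ p : Hub m q, Fin (l p)), ∃ y, adjY D u w.1 y ∧ c (f (.inr w)) = .inr y := by
      intro w
      have := hf.2 (.inr w)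
      simp only [A, mem_biUnion, mem_filter, mem_univ, true_and] at this
      exact this
    rintro (a | a) (b | b) hab
    · rw [SimpleGraph.comap_adj, hl, hl]
      exact hab
    · have hab' : b.1 = a := hab
      rw [SimpleGraph.comap_adj, hl]
      obtain ⟨y, hy1, hy2⟩ := hr b
      rw [hy2, ← hab']
      exact hy1
    · have hab' : a.1 = b := hab
      rw [SimpleGraph.comap_adj, hl]
      obtain ⟨y, hy1, hy2⟩ := hr a
      rw [hy2, ← hab']
      exact hy1
    · exact absurd hab (by intro h; exact h)
  refine le_trans ?_ (h1.trans h2)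
  rw [Fintype.prod_sum_type, Fintype.prod_sigma]
  apply Nat.mul_le_mul
  · apply Finset.prod_le_prod' 
    intro p _
    apply Nat.sub_le_sub_right
    exact cc_card m q D u hT n (.inl p)
  · apply Finset.prod_le_prod'
    intro p _
    have hconst : ∀ y : Fin (l p), (A (Sum.inr ⟨p, y⟩)).card =
        ((univ.filter (fun y : Fin q × Fin (D * u) => adjY D u p y)).biUnion
        (fun y => univ.filter (fun x => c x = .inr y))).card := fun _ => rfl
    simp only [hconst]
    rw [Finset.prod_const, Finset.card_univ, Fintype.card_fin]
    apply Nat.pow_le_pow_left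
    apply Nat.sub_le_sub_right
    change _ ≤ ((univ.filter (fun y : Fin q × Fin (D * u) => adjY D u p y)).biUnion
        (fun y => univ.filter (fun x => c x = .inr y))).card
    rw [Finset.card_biUnion, ← card_adjY m q D u hm p]
    · rw [← smul_eq_mul, ← Finset.sum_const]
      apply Finset.sum_le_sum
      intro y _
      exact cc_card m q D u hT n (.inr y)
    · intro y _ y' _ hyy'
      rw [Function.onFun, Finset.disjoint_left]
      intro x hx hx'
      simp only [mem_filter, mem_univ, true_and] at hx hx'
      rw [hx] at hx'
      simp only [Sum.inr.injEq] at hx'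
      exact hyy' hx'

end H16Blow
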