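import Pool.Agent.H16.BlowHost

set_option autoImplicit false

/-!
Comparison of blow-ups with few parts with the host.
-/

open Finset

namespace H16Blow

section params
variable (M q : ℕ)

/-- number of components -/
abbrev mm : ℕ := 2 * M + 1
/-- denominators -/
abbrev DD : ℕ := 2 * M + 2
/-- logarithm of `DD` -/
def lam : ℕ := Nat.log 2 (M + 1) + 2
/-- multiplier for the numbers of leaves -/
def NN : ℕ := 16 * q * (q + 1) * (24 * (q + 1) + 6) * DD M * lam M
/-- multiplier for the units -/
def uu : ℕ := 2 * (mm M) ^ 2 * (q + 1) * (NN M q) * q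
/-- numbers of leaves -/
def ll (p : Hub (mm M) q) : ℕ := NN M q * ee (mm M) q (DD M) p

/-- the graph `H` -/
abbrev HH := HG (mm M) q (ll M q)

end params

lemma lam_le (M : ℕ) : lam M ≤ DD M := by
  have h : Nat.log 2 (M + 1) < M + 1 := Nat.log_lt_self 2 (by omega)
  simp only [lam, DD]
  omega

lemma le_lam (M : ℕ) : DD M ≤ 2 ^ lam M := by
  have h : M + 1 < 2 ^ (Nat.log 2 (M + 1) + 1) := Nat.lt_pow_succ_log_self (by norm_num) _
  have h2 : 2 ^ lam M = 2 * 2 ^ (Nat.log 2 (M + 1) + 1) := by
    simp only [lam]; rw [pow_succ 2 (Nat.log 2 (M + 1) + 1)]; ring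
  rw [h2]
  simp only [DD]
  omega

lemma sum_ee (m q D : ℕ) (hm : m + 1 = D) (hq : 1 ≤ q) (i : Fin m) :
    ∑ j : Fin (q + 1), ee m q D (i, j) = q ^ 2 * D := by
  rw [Fin.sum_univ_succ]
  simp only [ee, if_pos]
  have h1 : ∀ j : Fin q, (if (Fin.succ j = 0) then q * (i.val + 1) else q * D - (i.val + 1)) =
      q * D - (i.val + 1) := fun j => if_neg (Fin.succ_ne_zero j)
  simp only [h1, Finset.sum_const, Finset.card_univ, Fintype.card_fin, smul_eq_mul]
  have h2 : i.val + 1 ≤ q * D := by
    have := i.2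
    calc i.val + 1 ≤ D := by omega
      _ = 1 * D := (one_mul D).symm
      _ ≤ q * D := Nat.mul_le_mul_right D hq
  rw [← Nat.mul_add, Nat.add_sub_cancel' h2]
  ring

lemma ee_pos (m q D : ℕ) (hm : m + 1 = D) (hq : 1 ≤ q) (p : Hub m q) : 1 ≤ ee m q D p := by
  unfold ee
  split_ifs
  · nlinarith
  · have := p.1.2
    have : D ≤ q * D := by nlinarith
    omega

lemma ee_le (m q D : ℕ) (hm : m + 1 = D) (p : Hub m q) : ee m q D p ≤ q * D := by
  unfold ee
  split_ifs
  · exact Nat.mul_le_mul_left q (by have := p.1.2; omega)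
  · exact Nat.sub_le _ _

/-- total number of leaves -/
lemma sum_ll (M q : ℕ) (hq : 1 ≤ q) :
    ∑ p, ll M q p = mm M * (NN M q * (q ^ 2 * DD M)) := by
  rw [Fintype.sum_prod_type]
  unfold ll
  simp_rw [← Finset.mul_sum, sum_ee (mm M) q (DD M) rfl hq]
  rw [Finset.sum_const, Finset.card_univ, Fintype.card_fin, smul_eq_mul]
  ring

open Classical in
/-- Upper bound for blow-ups of graphs with at most `M` vertices. -/
lemma num_blow_le (M q : ℕ) (hq : 1 ≤ q) (n : ℕ) (hn : 0 < n) (m' : ℕ) (hm' : m' ≤ M)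
    (G₀ : SimpleGraph (Fin m')) (φ : Fin n → Fin m') (hG : (G₀.comap φ).CliqueFree (q + 2)) :
    (H67Blow.num (HH M q) (G₀.comap φ) : ℝ) ≤ (n : ℝ) ^ (mm M * (q + 1)) *
      ((∏ p, ((n : ℝ) * (ee (mm M) q (DD M) p / (q * DD M))) ^ ll M q p) *
        Real.exp (-(NN M q / (16 * q)))) := by
  set G := G₀.comap φ with hGdef
  set N := NN M q with hN
  set D := DD M with hD
  set m := mm M with hm
  have hn' : (0 : ℝ) < n := by exact_mod_cast hn
  have hq' : (0 : ℝ) < q := by exact_mod_cast hq
  have hq1 : (1 : ℝ) ≤ q := by exact_mod_cast hq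
  have hD' : (0 : ℝ) < D := by
    have : 0 < D := by simp only [hD, DD]; omega
    exact_mod_cast this
  have hDM : (D : ℝ) = 2 * (M + 1) := by simp only [hD, DD]; push_cast; ring
  set x : Hub m q → ℝ := fun p => (ee m q D p : ℝ) / (q * D) with hx
  have hx0 : ∀ p, 0 < x p := by
    intro p
    have h1 : (1 : ℝ) ≤ ee m q D p := by exact_mod_cast ee_pos m q D rfl hq p
    exact div_pos (by linarith) (mul_pos hq' hD')
  have hx1 : ∀ p, x p ≤ 1 := by
    intro p
    simp only [hx]
    rw [div_le_one (mul_pos hq' hD')]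
    exact_mod_cast ee_le m q D rfl p
  have hsx : ∀ i, ∑ j, x (i, j) = q := by
    intro i
    simp only [hx]
    rw [← Finset.sum_div, div_eq_iff (mul_pos hq' hD').ne']
    have := sum_ee m q D rfl hq i
    have h2 : (∑ j, (ee m q D (i, j) : ℝ)) = q ^ 2 * D := by exact_mod_cast this
    rw [h2]; ring
  set L : ℝ := N * q ^ 2 * D with hL
  have hL0 : 0 ≤ L := by positivity
  have hl : ∀ p, (ll M q p : ℝ) = L / q * x p := by
    intro p
    simp only [ll, hL, hx]
    push_cast
    field_simp
    rfl
  set g : ℝ := 1 / (2 * D * q) with hg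
  have hg0 : 0 ≤ g := by positivity
  have hgain : L / q * g ^ 2 / 2 = N / (8 * q * D) := by
    simp only [hL, hg]; field_simp; norm_num
  -- degree of the classes
  set δ : Fin m' → ℝ := fun a => ((univ.filter (fun y => G₀.Adj a (φ y))).card : ℝ) with hδ
  have hdeg : ∀ v, (dg G v : ℝ) = δ (φ v) := by
    intro v
    simp only [dg, hδ, hGdef, SimpleGraph.comap_adj]
  -- missing components
  set miss : Finset (Fin m) := univ.filter (fun i => ∀ a : Fin m',
    1 / (2 * (D : ℝ)) ≤ |δ a / n - (i.val + 1) / D|) with hmiss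
  have hmisscard : M + 1 ≤ miss.card := by
    have h1 : (univ \ miss).card ≤ m' := by
      have h2 : ∀ i ∈ univ \ miss, ∃ a : Fin m', |δ a / n - (i.val + 1) / D| < 1 / (2 * (D : ℝ)) := by
        intro i hi
        simp only [hmiss, mem_sdiff, mem_univ, true_and, mem_filter] at hi
        push Not at hi
        exact hi
      have : ∃ f : Fin m → Fin m', ∀ i ∈ univ \ miss,
          |δ (f i) / n - (i.val + 1) / D| < 1 / (2 * (D : ℝ)) := by
        have a₀ : Fin m' := φ ⟨0, hn⟩
        refine ⟨fun i => if h : i ∈ univ \ miss then (h2 i h).choose else a₀, fun i hi => ?_⟩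
        simp only [dif_pos hi]
        exact (h2 i hi).choose_spec
      obtain ⟨f, hf⟩ := this
      calc (univ \ miss).card ≤ (univ : Finset (Fin m')).card := by
            apply Finset.card_le_card_of_injOn f (fun _ _ => mem_univ _)
            intro i hi i' hi' hii'
            have h3 := hf i hi
            have h4 := hf i' hi'
            rw [← hii'] at h4
            have h5 : |((i.val : ℝ) + 1) / D - (i'.val + 1) / D| < 1 / D := by
              have h6 : ((i.val : ℝ) + 1) / D - (i'.val + 1) / D =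
                (δ (f i) / n - (i'.val + 1) / D) - (δ (f i) / n - (i.val + 1) / D) := by ring
              rw [h6]
              have h7 := abs_sub (δ (f i) / n - (i'.val + 1) / D) (δ (f i) / n - (i.val + 1) / D)
              have h8 : (1 : ℝ) / D = 1 / (2 * D) + 1 / (2 * D) := by field_simp; norm_num
              rw [h8]
              linarith
            have h6 : ((i.val : ℝ) + 1) / D - (i'.val + 1) / D = ((i.val : ℝ) - i'.val) / D := by
              ring
            rw [h6, abs_div, abs_of_pos hD', div_lt_div_iff_of_pos_right hD'] at h5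
            have h7 : |((i.val : ℤ) - i'.val : ℤ)| < 1 := by
              have : ((|((i.val : ℤ) - i'.val : ℤ)| : ℤ) : ℝ) < 1 := by push_cast; exact h5
              exact_mod_cast this
            have h8 := Int.abs_lt_one_iff.mp h7
            apply Fin.ext
            omega
        _ = m' := by rw [Finset.card_univ, Fintype.card_fin]
    have h2 : (univ \ miss).card = m - miss.card := by
      rw [Finset.card_sdiff_of_subset (subset_univ _), Finset.card_univ, Fintype.card_fin]
    have h3 : m = 2 * M + 1 := rfl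
    omega
  -- apply the general bound
  have hVn : (Fintype.card (Fin n) : ℝ) = n := by rw [Fintype.card_fin]
  rw [← hVn]
  apply num_le_of_bound
  · intro f hf
    rw [hVn, Fintype.prod_prod_type, Fintype.prod_prod_type]
    -- bound for every component
    have hcomp : ∀ i : Fin m, ∏ j, (dg G (f (i, j)) : ℝ) ^ ll M q (i, j) ≤
        (∏ j, ((n : ℝ) * x (i, j)) ^ ll M q (i, j)) *
          (if i ∈ miss then Real.exp (-(N / (8 * q * D))) else 1) := by
      intro i
      have hsd : ∑ j, (dg G (f (i, j)) : ℝ) ≤ q * n := by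
        have := sum_dg_le G q hG (fun j => f (i, j)) (fun j j' h => hf i j j' h)
        rw [Fintype.card_fin] at this
        exact_mod_cast this
      split_ifs with hi
      · rw [← hgain]
        -- find a coordinate with a gap
        have hgap : ∃ j₀, g ≤ x (i, j₀) - (dg G (f (i, j₀)) : ℝ) / n := by
          simp only [hmiss, mem_filter, mem_univ, true_and] at hi
          have h1 := hi (φ (f (i, 0)))
          rw [← hdeg] at h1
          have hx00 : x (i, 0) = (i.val + 1) / D := by
            simp only [hx, ee, if_true]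
            push_cast
            field_simp
          rcases le_abs.mp h1 with h2 | h2
          · -- other coordinates
            by_contra hcon
            push Not at hcon
            have h3 : ∑ j, (x (i, j) - (dg G (f (i, j)) : ℝ) / n) ≥ 0 := by
              rw [Finset.sum_sub_distrib, hsx, ← Finset.sum_div]
              have : (∑ j, (dg G (f (i, j)) : ℝ)) / n ≤ q := by rw [div_le_iff₀ hn']; exact hsd
              linarith
            rw [Fin.sum_univ_succ] at h3
            have h4 : ∑ j : Fin q, (x (i, j.succ) - (dg G (f (i, j.succ)) : ℝ) / n) <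
                ∑ _j : Fin q, g := by
              apply Finset.sum_lt_sum_of_nonempty
              · exact ⟨⟨0, hq⟩, mem_univ _⟩
              · intro j _
                exact hcon j.succ
            rw [Finset.sum_const, Finset.card_univ, Fintype.card_fin, nsmul_eq_mul] at h4
            have h5 : (q : ℝ) * g = 1 / (2 * D) := by simp only [hg]; field_simp
            rw [h5] at h4
            rw [hx00] at h3
            linarith
          · refine ⟨0, ?_⟩
            rw [hx00]
            have h3 : g ≤ 1 / (2 * D) := by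
              simp only [hg]
              apply one_div_le_one_div_of_le (by positivity)
              nlinarith
            linarith
        obtain ⟨j₀, hj₀⟩ := hgap
        exact prod_le_gap (fun j => (dg G (f (i, j)) : ℝ)) (fun j => x (i, j))
          (fun j => ll M q (i, j)) n q L g hn' hL0 hq' (fun j => Nat.cast_nonneg _)
          (fun j => hx0 _) (fun j => hx1 _) hsd (hsx i) (fun j => hl _) hg0 j₀ hj₀
      · rw [mul_one]
        exact prod_le_nogap (fun j => (dg G (f (i, j)) : ℝ)) (fun j => x (i, j))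
          (fun j => ll M q (i, j)) n q L hn' hL0 hq' (fun j => Nat.cast_nonneg _)
          (fun j => hx0 _) hsd (hsx i) (fun j => hl _)
    calc ∏ i, ∏ j, (dg G (f (i, j)) : ℝ) ^ ll M q (i, j)
        ≤ ∏ i, ((∏ j, ((n : ℝ) * x (i, j)) ^ ll M q (i, j)) *
          (if i ∈ miss then Real.exp (-(N / (8 * q * D))) else 1)) := by
          apply Finset.prod_le_prod
          · intro i _
            exact Finset.prod_nonneg fun j _ => by positivity
          · intro i _
            exact hcomp i
      _ = (∏ i, ∏ j, ((n : ℝ) * x (i, j)) ^ ll M q (i, j)) *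
          Real.exp (-(N / (8 * q * D))) ^ miss.card := by
          rw [Finset.prod_mul_distrib]
          congr 1
          rw [Finset.prod_ite_mem, Finset.univ_inter, Finset.prod_const]
      _ ≤ (∏ i, ∏ j, ((n : ℝ) * x (i, j)) ^ ll M q (i, j)) *
          Real.exp (-(N / (16 * q))) := by
          apply mul_le_mul_of_nonneg_left
          · rw [← Real.exp_nat_mul]
            apply Real.exp_le_exp.mpr
            have h1 : ((M : ℝ) + 1) ≤ miss.card := by exact_mod_cast hmisscard
            have h2 : (N : ℝ) / (16 * q) = (M + 1) * (N / (8 * q * D)) := by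
              rw [hDM]
              have : (M : ℝ) + 1 ≠ 0 := by positivity
              field_simp
              ring
            rw [h2]
            have h3 : (0 : ℝ) ≤ N / (8 * q * D) := by positivity
            nlinarith
          · exact Finset.prod_nonneg fun i _ => Finset.prod_nonneg fun j _ =>
              pow_nonneg (mul_pos hn' (hx0 _)).le _
  · rw [hVn]
    apply mul_nonneg _ (Real.exp_pos _).le
    exact Finset.prod_nonneg fun p _ => pow_nonneg (mul_pos hn' (hx0 p)).le _

/-- The analytic comparison for large `n`. -/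
lemma eventually_lt (a b T U K₁ K₂ : ℕ) (hT : 0 < T) (hU : 0 < U) (E : ℝ)
    (hE : E < (1 / (T : ℝ)) ^ a * ((U : ℝ) / T) ^ b) :
    ∃ n₀ : ℕ, ∀ n ≥ n₀, 0 < n ∧ K₁ ≤ n / T ∧ (0 : ℝ) ≤ U * (n / T : ℕ) - K₂ ∧
      (n : ℝ) ^ a * (n : ℝ) ^ b * E <
        (((n / T : ℕ) : ℝ) - K₁) ^ a * (U * (n / T : ℕ) - K₂) ^ b := by
  have hT' : (0 : ℝ) < T := by exact_mod_cast hT
  have hU' : (0 : ℝ) < U := by exact_mod_cast hU
  set F : ℝ → ℝ := fun ε => (1 / (T : ℝ) - (1 + K₁) * ε) ^ a *
    ((U : ℝ) / T - (U + K₂) * ε) ^ b with hF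
  have hFc : Continuous F := by fun_prop
  have hF0 : E < F 0 := by simp only [hF]; simpa using hE
  have h1 : Filter.Tendsto (fun n : ℕ => F (1 / (n : ℝ))) Filter.atTop (nhds (F 0)) :=
    (hFc.tendsto 0).comp tendsto_one_div_atTop_nhds_zero_nat
  have h2 := h1.eventually (lt_mem_nhds hF0)
  obtain ⟨n₁, hn₁⟩ := Filter.eventually_atTop.mp h2
  refine ⟨max n₁ (T * (1 + K₁ + K₂ + 1)), fun n hn => ?_⟩
  have hn1 : n₁ ≤ n := le_trans (le_max_left _ _) hn
  have hn2 : T * (1 + K₁ + K₂ + 1) ≤ n := le_trans (le_max_right _ _) hn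
  have hnpos : 0 < n := lt_of_lt_of_le (by positivity) hn2
  have hn' : (0 : ℝ) < n := by exact_mod_cast hnpos
  have hs : 1 + K₁ + K₂ + 1 ≤ n / T := by
    rw [Nat.le_div_iff_mul_le hT, mul_comm]; exact hn2
  have hs1 : (n : ℝ) / T - 1 ≤ (n / T : ℕ) := by
    have h3 : n < (n / T + 1) * T := by
      have := Nat.lt_div_mul_add (a := n) hT
      nlinarith
    have h4 : (n : ℝ) < ((n / T : ℕ) + 1) * T := by exact_mod_cast h3
    rw [sub_le_iff_le_add, div_le_iff₀ hT']
    exact h4.le
  have hs2 : (1 + K₁ + K₂ + 1 : ℝ) ≤ (n / T : ℕ) := by exact_mod_cast hs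
  have hK1 : (0 : ℝ) ≤ K₁ := Nat.cast_nonneg _
  have hK2 : (0 : ℝ) ≤ K₂ := Nat.cast_nonneg _
  have hU1 : (1 : ℝ) ≤ U := by exact_mod_cast hU
  have hpos2 : (0 : ℝ) ≤ U * (n / T : ℕ) - K₂ := by nlinarith
  refine ⟨hnpos, by omega, hpos2, ?_⟩
  have h3 := hn₁ n hn1
  have hbase1 : (0 : ℝ) ≤ 1 / (T : ℝ) - (1 + K₁) * (1 / (n : ℝ)) := by
    have h4 : (T : ℝ) * (1 + K₁ + K₂ + 1) ≤ n := by exact_mod_cast hn2
    rw [sub_nonneg, mul_one_div, div_le_div_iff₀ hn' hT']
    nlinarith
  have hbase2 : (0 : ℝ) ≤ (U : ℝ) / T - (U + K₂) * (1 / (n : ℝ)) := by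
    have h4 : (T : ℝ) * (1 + K₁ + K₂ + 1) ≤ n := by exact_mod_cast hn2
    rw [sub_nonneg, mul_one_div, div_le_div_iff₀ hn' hT']
    have h5 : (U + K₂) * (T : ℝ) ≤ U * (T * (1 + K₁ + K₂ + 1)) := by
      have : (K₂ : ℝ) ≤ U * K₂ := by nlinarith
      nlinarith [mul_nonneg hT'.le hK1, mul_nonneg hT'.le hK2, mul_pos hT' hU',
        mul_nonneg (mul_pos hT' hU').le hK1, mul_le_mul_of_nonneg_left this hT'.le]
    nlinarith
  calc (n : ℝ) ^ a * (n : ℝ) ^ b * E < (n : ℝ) ^ a * (n : ℝ) ^ b * F (1 / (n : ℝ)) := by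
        apply mul_lt_mul_of_pos_left h3
        positivity
    _ = ((n : ℝ) * (1 / (T : ℝ) - (1 + K₁) * (1 / (n : ℝ)))) ^ a *
        ((n : ℝ) * ((U : ℝ) / T - (U + K₂) * (1 / (n : ℝ)))) ^ b := by
        simp only [hF]; rw [mul_pow, mul_pow]; ring
    _ ≤ _ := by
        apply mul_le_mul
        · apply pow_le_pow_left₀ (mul_nonneg hn'.le hbase1)
          have : (n : ℝ) * (1 / (T : ℝ) - (1 + K₁) * (1 / (n : ℝ))) = n / T - (1 + K₁) := by
            field_simp
          rw [this]; linarith
        · apply pow_le_pow_left₀ (mul_nonneg hn'.le hbase2)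
          have : (n : ℝ) * ((U : ℝ) / T - (U + K₂) * (1 / (n : ℝ))) = U * (n / T) - (U + K₂) := by
            field_simp
          rw [this]
          nlinarith
        · exact pow_nonneg (mul_nonneg hn'.le hbase2) _
        · apply pow_nonneg; linarith

lemma cliqueFree_comap' {V V' : Type*} (G : SimpleGraph V) (φ : V' → V) {k : ℕ}
    (hG : G.CliqueFree k) : (G.comap φ).CliqueFree k := by
  classical
  intro t ht
  apply hG (t.image φ)
  constructor
  · intro a ha b hb hab
    simp only [coe_image, Set.mem_image, mem_coe] at ha hb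
    obtain ⟨a, ha, rfl⟩ := ha
    obtain ⟨b, hb, rfl⟩ := hb
    exact ht.isClique ha hb (fun h => hab (by rw [h]))
  · rw [Finset.card_image_of_injOn, ht.card_eq]
    intro a ha b hb hab
    by_contra hne
    have h1 := ht.isClique ha hb hne
    rw [SimpleGraph.comap_adj, hab] at h1
    exact G.loopless.irrefl _ h1

/-- For large `n` the host has more labelled copies of `H` than every `K_{q+2}`-free blow-up of a
graph with at most `M` vertices. -/
theorem main_num (M q : ℕ) (hq : 1 ≤ q) : ∃ n₀ : ℕ, ∀ n ≥ n₀,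
    ∃ Gh : SimpleGraph (Fin n), Gh.CliqueFree (q + 2) ∧
      ∀ m' ≤ M, ∀ (G₀ : SimpleGraph (Fin m')) (φ : Fin n → Fin m'),
        (G₀.comap φ).CliqueFree (q + 2) →
        H67Blow.num (HH M q) (G₀.comap φ) < H67Blow.num (HH M q) Gh := by
  set m := mm M with hm
  set D := DD M with hD
  set N := NN M q with hN
  set u := uu M q with hu
  set L : ℕ := N * (q ^ 2 * D) with hL
  set T := Fintype.card (ZT m q D u) with hT
  set C := Fintype.card (HV m q (ll M q)) with hC
  have hTval : T = m * (q + 1) + q * (D * u) := by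
    rw [hT]; simp [Fintype.card_sum, Fintype.card_prod]
  have hm1 : 1 ≤ m := by simp only [hm, mm]; omega
  have hD2 : 2 ≤ D := by simp only [hD, DD]; omega
  have hmD : m + 1 = D := rfl
  have hlpos : 0 < lam M := by simp only [lam]; omega
  have hNpos : 0 < N := by simp only [hN, NN]; positivity
  have hupos : 0 < u := by simp only [hu, uu]; positivity
  have hTpos : 0 < T := by rw [hTval]; positivity
  have hUval : q * (D * u) = 2 * m ^ 2 * (q + 1) * L := by
    simp only [hu, uu, hL]; ring
  have hmL : 1 ≤ L := by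
    have : 0 < L := by simp only [hL]; positivity
    omega
  -- numeric condition
  have hnum := numeric q D (lam M) hq hD2 hlpos (lam_le M) (le_lam M) m N T hmD rfl (by
    rw [hTval, hUval]
    have h1 : m * (q + 1) ≤ 2 * m ^ 2 * (q + 1) * L := by
      calc m * (q + 1) = m * (q + 1) * 1 := by ring
        _ ≤ m * (q + 1) * (2 * m * L) := Nat.mul_le_mul_left _ (by nlinarith)
        _ = _ := by ring
    calc m * (q + 1) + 2 * m ^ 2 * (q + 1) * L ≤
        2 * m ^ 2 * (q + 1) * L + 2 * m ^ 2 * (q + 1) * L := Nat.add_le_add_right h1 _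
      _ = 4 * m ^ 2 * (q + 1) * (N * q ^ 2 * D) := by simp only [hL]; ring)
  set U : ℕ := q * (D * u) with hU
  have hUpos : 0 < U := by simp only [hU]; positivity
  have hTr : (0 : ℝ) < T := by exact_mod_cast hTpos
  -- `(U/T)^{mL} ≥ 1/2`
  have hhalf : (1 : ℝ) / 2 ≤ ((U : ℝ) / T) ^ (m * L) := by
    have h1 : (U : ℝ) / T = 1 + (-(m * (q + 1) / T)) := by
      have : (T : ℝ) = m * (q + 1) + U := by rw [hTval]; push_cast; simp only [hU]
      field_simp
      linarith
    rw [h1]
    have hsmall : (m : ℝ) * (q + 1) / T * (m * L) ≤ 1 / 2 := by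
      rw [div_mul_eq_mul_div, div_le_div_iff₀ hTr (by norm_num)]
      have h2 : 2 * m ^ 2 * (q + 1) * L ≤ T := by rw [← hUval, hTval]; omega
      have h3 : (2 : ℝ) * m ^ 2 * (q + 1) * L ≤ T := by exact_mod_cast h2
      nlinarith
    have h0 : (0 : ℝ) ≤ m * (q + 1) / T := by positivity
    have hle1 : (m : ℝ) * (q + 1) / T ≤ 1 := by
      have h2 : (1 : ℝ) ≤ m * L := by
        have : 1 ≤ m * L := Nat.mul_pos (by omega) (by omega)
        exact_mod_cast this
      nlinarith
    have h4 := one_add_mul_le_pow (a := -((m : ℝ) * (q + 1) / T)) (by linarith) (m * L)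
    refine le_trans ?_ h4
    push_cast
    linarith
  have hE : Real.exp (-((N : ℝ) / (16 * q))) <
      (1 / (T : ℝ)) ^ (m * (q + 1)) * ((U : ℝ) / T) ^ (m * L) := by
    have h1 : (0 : ℝ) < (T : ℝ) ^ (m * (q + 1)) := by positivity
    calc Real.exp (-((N : ℝ) / (16 * q))) = 1 / Real.exp ((N : ℝ) / (16 * q)) := by
          rw [Real.exp_neg, one_div]
      _ < 1 / (2 * (T : ℝ) ^ (m * (q + 1))) :=
          one_div_lt_one_div_of_lt (by positivity) hnum
      _ = (1 / (T : ℝ)) ^ (m * (q + 1)) * (1 / 2) := by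
          rw [one_div_pow]; field_simp
      _ ≤ _ := mul_le_mul_of_nonneg_left hhalf (by positivity)
  obtain ⟨n₀, hn₀⟩ := eventually_lt (m * (q + 1)) (m * L) T U C (q * D * C) hTpos hUpos _ hE
  refine ⟨n₀, fun n hn => ?_⟩
  obtain ⟨hnpos, hC1, hC2, hlt⟩ := hn₀ n hn
  have hcard : 0 < Fintype.card (ZT m q D u) := hTpos
  refine ⟨(BG m q D u).comap (cc m q D u hcard n), ?_, ?_⟩
  · exact cliqueFree_comap' _ _ (BG_cliqueFree m q D u hq)
  intro m' hm' G₀ φ hG
  have hup := num_blow_le M q hq n hnpos m' hm' G₀ φ hG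
  have hlow := num_host_ge m q D u (ll M q) hmD hcard n
  have hlow' : (((∏ _p : Hub m q, (n / T - C)) *
      (∏ p : Hub m q, (u * ee m q D p * (n / T) - C) ^ ll M q p) : ℕ) : ℝ) ≤
      H67Blow.num (HH M q) ((BG m q D u).comap (cc m q D u hcard n)) := by
    exact_mod_cast hlow
  have hn' : (0 : ℝ) < n := by exact_mod_cast hnpos
  have hq' : (0 : ℝ) < q := by exact_mod_cast hq
  have hD' : (0 : ℝ) < D := by
    have : 0 < D := by omega
    exact_mod_cast this
  have hsum : ∑ p, ll M q p = m * L := sum_ll M q hq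
  set X : ℝ := ∏ p : Hub m q, ((ee m q D p : ℝ) / (q * D)) ^ ll M q p with hX
  have hXpos : 0 < X := by
    apply Finset.prod_pos
    intro p _
    have h1 : (1 : ℝ) ≤ ee m q D p := by exact_mod_cast ee_pos m q D rfl hq p
    positivity
  have hup2 : (H67Blow.num (HH M q) (G₀.comap φ) : ℝ) ≤
      ((n : ℝ) ^ (m * (q + 1)) * (n : ℝ) ^ (m * L) * Real.exp (-((N : ℝ) / (16 * q)))) * X := by
    refine hup.trans (le_of_eq ?_)
    have h1 : ∏ p : Hub m q, ((n : ℝ) * (ee m q D p / (q * D))) ^ ll M q p =
        (n : ℝ) ^ (m * L) * X := by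
      simp_rw [mul_pow]
      rw [Finset.prod_mul_distrib, Finset.prod_pow_eq_pow_sum, hsum]
    rw [h1]
    ring
  have hlow2 : ((((n / T : ℕ) : ℝ) - C) ^ (m * (q + 1)) *
      (U * (n / T : ℕ) - (q * D * C : ℕ)) ^ (m * L)) * X ≤
      (((∏ _p : Hub m q, (n / T - C)) *
      (∏ p : Hub m q, (u * ee m q D p * (n / T) - C) ^ ll M q p) : ℕ) : ℝ) := by
    push_cast [Nat.cast_sub hC1]
    rw [mul_assoc]
    apply mul_le_mul
    · apply le_of_eq
      rw [Finset.prod_const, Finset.card_univ, Fintype.card_prod, Fintype.card_fin,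
        Fintype.card_fin]
    · rw [← hsum, ← Finset.prod_pow_eq_pow_sum, hX, ← Finset.prod_mul_distrib]
      apply Finset.prod_le_prod
      · intro p _
        push_cast at hC2
        positivity
      · intro p _
        rw [← mul_pow]
        apply pow_le_pow_left₀
        · push_cast at hC2
          positivity
        · have h1 : (1 : ℝ) ≤ ee m q D p := by exact_mod_cast ee_pos m q D rfl hq p
          have h2 : ((u * ee m q D p * (n / T) : ℕ) : ℝ) - C ≤
              ((u * ee m q D p * (n / T) - C : ℕ) : ℝ) := by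
            rw [sub_le_iff_le_add]
            have : u * ee m q D p * (n / T) ≤ (u * ee m q D p * (n / T) - C) + C := by omega
            exact_mod_cast this
          refine le_trans ?_ h2
          push_cast
          have h3 : ((U : ℝ) * ((n / T : ℕ) : ℝ) - q * D * C) * (ee m q D p / (q * D)) =
              u * ee m q D p * ((n / T : ℕ) : ℝ) - ee m q D p * C := by
            simp only [hU]; push_cast; field_simp
          rw [h3]
          have h4 : (0 : ℝ) ≤ C := Nat.cast_nonneg _
          nlinarith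
    · push_cast at hC2
      positivity
    · apply Finset.prod_nonneg
      intro p _
      have : ((C : ℝ)) ≤ (n / T : ℕ) := by exact_mod_cast hC1
      linarith
  have hfin : (H67Blow.num (HH M q) (G₀.comap φ) : ℝ) <
      H67Blow.num (HH M q) ((BG m q D u).comap (cc m q D u hcard n)) := by
    calc (H67Blow.num (HH M q) (G₀.comap φ) : ℝ) ≤ _ := hup2
      _ < ((((n / T : ℕ) : ℝ) - C) ^ (m * (q + 1)) *
          (U * (n / T : ℕ) - (q * D * C : ℕ)) ^ (m * L)) * X :=
          mul_lt_mul_of_pos_right hlt hXpos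
      _ ≤ _ := hlow2
      _ ≤ _ := hlow'
  exact_mod_cast hfin

/-- number of vertices of `H` -/
lemma card_HV (M q : ℕ) (hq : 1 ≤ q) :
    Fintype.card (HV (mm M) q (ll M q)) ≤
      16 * ((q + 1) + 16 * q ^ 3 * (q + 1) * (24 * (q + 1) + 6)) *
        ((M + 1) ^ 3 * (Nat.log 2 (M + 1) + 1)) := by
  rw [Fintype.card_sum, Fintype.card_prod, Fintype.card_fin, Fintype.card_fin,
    Fintype.card_sigma]
  simp only [Fintype.card_fin]
  rw [sum_ll M q hq]
  simp only [NN, lam]
  have h1 : mm M ≤ 2 * (M + 1) := by simp only [mm]; omega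
  have h2 : DD M = 2 * (M + 1) := by simp only [DD]; ring
  rw [h2]
  have h3 : 1 ≤ M + 1 := by omega
  generalize M + 1 = y at *
  generalize mm M = z at *
  generalize Nat.log 2 y = g at *
  have h4 : y ≤ y ^ 3 := Nat.le_self_pow (by norm_num) y
  have h5 : y ^ 3 ≤ y ^ 3 * (g + 1) := Nat.le_mul_of_pos_right _ (by omega)
  calc z * (q + 1) + z * (16 * q * (q + 1) * (24 * (q + 1) + 6) * (2 * y) * (g + 2) *
        (q ^ 2 * (2 * y)))
      ≤ (2 * y) * (q + 1) + (2 * y) * (16 * q * (q + 1) * (24 * (q + 1) + 6) * (2 * y) * (g + 2) *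
        (q ^ 2 * (2 * y))) :=
        Nat.add_le_add (Nat.mul_le_mul_right _ h1) (Nat.mul_le_mul_right _ h1)
    _ = 2 * (q + 1) * y + 8 * (16 * q ^ 3 * (q + 1) * (24 * (q + 1) + 6)) *
        (y ^ 3 * (g + 2)) := by ring
    _ ≤ 16 * (q + 1) * (y ^ 3 * (g + 1)) + 8 * (16 * q ^ 3 * (q + 1) * (24 * (q + 1) + 6)) *
        (2 * (y ^ 3 * (g + 1))) := by
        apply Nat.add_le_add
        · calc 2 * (q + 1) * y ≤ 2 * (q + 1) * (y ^ 3 * (g + 1)) :=
              Nat.mul_le_mul_left _ (h4.trans h5)
            _ ≤ 16 * (q + 1) * (y ^ 3 * (g + 1)) := by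
              apply Nat.mul_le_mul_right; omega
        · apply Nat.mul_le_mul_left
          calc y ^ 3 * (g + 2) ≤ y ^ 3 * (2 * (g + 1)) := Nat.mul_le_mul_left _ (by omega)
            _ = _ := by ring
    _ = _ := by ring

end H16Blow
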